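import Pool.Agent.H98.Dbar.Final

/-! Admissible sets have finite or cofinite area exactly when `α ≤ 1`. -/

set_option autoImplicit false

open MeasureTheory
open scoped ENNReal
open H98.Dbar

namespace Pool.Agent.Results.MP_d3add2_an.AreaThreshold

/-- For `α > 0` and an integer `k > α`: every `α`-admissible Borel set has finite area or a
complement of finite area if and only if `α ≤ 1`. -/
theorem result (α : ℝ) (hα : 0 < α) (k : ℕ) (hk : α < k) :
    (∀ Ω : Set ℂ, MeasurableSet Ω → Admissible α k Ω → volume Ω < ⊤ ∨ volume Ωᶜ < ⊤) ↔ α ≤ 1 := by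
  constructor
  · intro h
    by_contra hcon
    obtain ⟨S, hS, h1, h2, h3⟩ := exists_infinite
    rcases h S hS (h3 α (not_le.1 hcon) k hk) with h4 | h4
    · rw [h1] at h4; exact lt_irrefl _ h4
    · rw [h2] at h4; exact lt_irrefl _ h4
  · intro hα1 Ω hΩ h
    exact area_of_admissible hα hα1 hk hΩ h

end Pool.Agent.Results.MP_d3add2_an.AreaThreshold
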