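import Pool.Agent.H2.TCR.M03

/-! Characterisation of the `α`-admissible sets, for every `α > 0`. -/

set_option autoImplicit false

open MeasureTheory
open scoped ENNReal
open H98.Dbar (IsProfile moll Admissible)
open H98.Dens (mom dens)

namespace Pool.Agent.Results.MP_d3add2_an.Criterion

/-- For every `α > 0`, a Borel set `Ω` is `α`-admissible iff its first moments `mom Ω n j z` in the
discs of radius `2^{-j}` (with the weight `(1 - |w - z|²/r²)ⁿ`, no weight for `α < 2`) satisfy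
`∑_j 2^{(1-α)j} ∫ |mom Ω n j z| dA(z) < ∞`; iff `∑_j 2^{-αj} ‖∇(χ_Ω * φ_j)‖₁ < ∞`, where
`φ(z) = H'(|z|²)/π` is a smooth radial bump and `moll H j Ω = χ_Ω * φ_j`; for `α ≤ 1` iff the
densities `dens Ω j z` of `Ω` in the discs satisfy `∑_j 2^{(1-α)j} ∫ |dens_{j+1} - dens_j| < ∞`;
for `α < 1` iff the fractional perimeter `∫_{z ∈ Ω} ∫_{w ∉ Ω} |z-w|^{α-3}` is finite. -/
theorem result :
    (∃ H : ℝ → ℝ, IsProfile H) ∧
    ∀ α : ℝ, 0 < α → ∀ k : ℕ, α < k → ∀ Ω : Set ℂ, MeasurableSet Ω →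
      (∀ n : ℕ, α < n + 2 → (Admissible α k Ω ↔
        (∑' j : ℕ, ENNReal.ofReal ((2:ℝ) ^ ((1 - α) * j)) * ∫⁻ z, ‖mom Ω n j z‖ₑ) < ⊤)) ∧
      (∀ H : ℝ → ℝ, IsProfile H → (Admissible α k Ω ↔
        (∑' j : ℕ, ENNReal.ofReal ((2:ℝ) ^ (-(α * j))) *
          ∫⁻ z, ‖fderiv ℝ (moll H j Ω) z‖ₑ) < ⊤)) ∧
      (α ≤ 1 → (Admissible α k Ω ↔
        (∑' j : ℕ, ENNReal.ofReal ((2:ℝ) ^ ((1 - α) * j)) *
          ∫⁻ z, ENNReal.ofReal |dens Ω (j + 1) z - dens Ω j z|) < ⊤)) ∧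
      (α < 1 → (Admissible α k Ω ↔
        (∫⁻ z in Ω, ∫⁻ w in Ωᶜ, ENNReal.ofReal (‖z - w‖ ^ (α - 3))) < ⊤)) :=
  ⟨H98.Dbar.exists_profile, fun _ hα _ hk _ hΩ =>
    ⟨fun _ hn => H98.Dens.admissible_iff_mom hα hn hk hΩ,
     fun _ hH => H98.Dbar.admissible_iff_perCrit hH hα hk hΩ,
     fun hα1 => H98.Dens.admissible_iff_densSum hα hα1 hk hΩ,
     fun hα1 => H98.Dbar.admissible_iff_fracPerimeter hα hα1 hk hΩ⟩⟩

end Pool.Agent.Results.MP_d3add2_an.Criterion
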